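import Pool.Agent.W198.TC.Stms2
import Pool.Agent.W198.TC.Basic

/-! TC-ADM (helper440): piecewise continuous windows are admissible. -/

set_option autoImplicit false

open Filter Topology Set MeasureTheory

namespace Pool.Agent.W440.TCA

open _root_.TC

variable {c : ℕ → ℝ} {K : ℕ}

/-- at every point at most one piece is active -/
theorem pw_cases (hc : StrictMono c) (K : ℕ) (ξ : ℝ) :
    (∃ k₀ < K, ξ ∈ Ico (c k₀) (c (k₀ + 1)) ∧ ∀ f : ℕ → ℝ → ℝ, pw c f K ξ = f k₀ ξ) ∨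
      ((∀ k < K, ξ ∉ Ico (c k) (c (k + 1))) ∧ ∀ f : ℕ → ℝ → ℝ, pw c f K ξ = 0) := by
  by_cases h : ∃ k₀ < K, ξ ∈ Ico (c k₀) (c (k₀ + 1))
  · obtain ⟨k₀, hk, hξ⟩ := h
    refine Or.inl ⟨k₀, hk, hξ, fun f => ?_⟩
    unfold pw
    rw [Finset.sum_eq_single k₀]
    · rw [indicator_of_mem hξ]
    · intro k _ hne
      rw [indicator_of_notMem]
      intro hk2
      rcases lt_or_gt_of_ne hne with h1 | h1
      · have h2 : c (k + 1) ≤ c k₀ := hc.monotone h1
        exact absurd hk2.2 (not_lt.2 (h2.trans hξ.1))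
      · have h2 : c (k₀ + 1) ≤ c k := hc.monotone h1
        exact absurd hξ.2 (not_lt.2 (h2.trans hk2.1))
    · intro h1
      exact absurd (Finset.mem_range.2 hk) h1
  · push Not at h
    refine Or.inr ⟨h, fun f => ?_⟩
    unfold pw
    refine Finset.sum_eq_zero fun k hk => ?_
    rw [indicator_of_notMem (h k (Finset.mem_range.1 hk))]

theorem pw_sq (hc : StrictMono c) (f : ℕ → ℝ → ℝ) (K : ℕ) (ξ : ℝ) :
    pw c f K ξ ^ 2 = pw c (fun k x => f k x ^ 2) K ξ := by
  rcases pw_cases hc K ξ with ⟨k₀, _, _, h⟩ | ⟨_, h⟩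
  · rw [h, h]
  · rw [h, h]
    norm_num

/-- integral of a piece -/
theorem int_piece (g : ℝ → ℝ) {a b L : ℝ} (ha : 0 ≤ a) (hab : a ≤ b) (hb : b ≤ L) :
    ∫ y in (0 : ℝ)..L, (Ico a b).indicator g y = ∫ y in a..b, g y := by
  have hL : 0 ≤ L := ha.trans (hab.trans hb)
  rw [intervalIntegral.integral_of_le hL, intervalIntegral.integral_of_le hab,
    ← integral_Icc_eq_integral_Ioc, setIntegral_indicator measurableSet_Ico,
    ← integral_Ico_eq_integral_Ioc]
  congr 2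
  ext y
  constructor
  · exact fun h => h.2
  · exact fun h => ⟨⟨ha.trans h.1, h.2.le.trans hb⟩, h⟩

/-- the integral of the product with a continuous function -/
theorem int_pw (hc : StrictMono c) (hc0 : c 0 = 0) (f : ℕ → ℝ → ℝ) (hf : ∀ k, Continuous (f k))
    (φ : ℝ → ℝ) (hφ : Continuous φ) {M : ℝ} (hM : 0 < M) (hcK : c K ≤ 1) :
    ∫ y in (0 : ℝ)..M, pw c f K (y / M) * φ y =
      ∑ k ∈ Finset.range K, ∫ y in (c k * M)..(c (k + 1) * M), f k (y / M) * φ y := by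
  have h1 : ∀ y, pw c f K (y / M) * φ y = ∑ k ∈ Finset.range K,
      (Ico (c k * M) (c (k + 1) * M)).indicator (fun y => f k (y / M) * φ y) y := by
    intro y
    unfold pw
    rw [Finset.sum_mul]
    refine Finset.sum_congr rfl fun k _ => ?_
    by_cases h : y / M ∈ Ico (c k) (c (k + 1))
    · have h' : y ∈ Ico (c k * M) (c (k + 1) * M) :=
        ⟨(le_div_iff₀ hM).1 h.1, (div_lt_iff₀ hM).1 h.2⟩
      rw [indicator_of_mem h, indicator_of_mem h']
    · have h' : y ∉ Ico (c k * M) (c (k + 1) * M) := fun h2 =>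
        h ⟨(le_div_iff₀ hM).2 h2.1, (div_lt_iff₀ hM).2 h2.2⟩
      rw [indicator_of_notMem h, indicator_of_notMem h', zero_mul]
  simp only [h1]
  have hcont : ∀ k, Continuous fun y => f k (y / M) * φ y := fun k =>
    ((hf k).comp (by fun_prop)).mul hφ
  rw [intervalIntegral.integral_finsetSum]
  · refine Finset.sum_congr rfl fun k hk => ?_
    have hk1 : k + 1 ≤ K := Finset.mem_range.1 hk
    refine int_piece _ ?_ ?_ ?_
    · have : 0 ≤ c k := hc0 ▸ hc.monotone (Nat.zero_le k)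
      positivity
    · exact mul_le_mul_of_nonneg_right (hc.monotone (Nat.le_succ k)) hM.le
    · have : c (k + 1) ≤ 1 := (hc.monotone hk1).trans hcK
      nlinarith
  · intro k _
    rw [intervalIntegrable_iff]
    exact ((hcont k).integrableOn_uIoc).indicator measurableSet_Ico

theorem w_field (h : S_WEAK) (hk : S_KCUM) (hc : StrictMono c) (hc0 : c 0 = 0) (hcK : c K ≤ 1)
    (f : ℕ → ℝ → ℝ) (hf : ∀ k, Continuous (f k)) :
    Tendsto (fun M : ℝ => (1 / M ^ 2) * ∫ y in (0 : ℝ)..M, pw c f K (y / M) * KK y) atTop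
      (𝓝 (∫ ξ in (0 : ℝ)..1, ξ * pw c f K ξ)) := by
  have hpos : ∀ k, 0 ≤ c k := fun k => hc0 ▸ hc.monotone (Nat.zero_le k)
  have e1 : ∫ ξ in (0 : ℝ)..1, ξ * pw c f K ξ =
      ∑ k ∈ Finset.range K, ∫ ξ in (c k)..(c (k + 1)), ξ * f k ξ := by
    have := int_pw (K := K) hc hc0 f hf (fun y => y) continuous_id one_pos hcK
    simp only [div_one, mul_one] at this
    simp only [mul_comm (_ : ℝ) (pw c f K _), mul_comm (_ : ℝ) (f _ _)]
    exact this
  rw [e1]
  have h2 := tendsto_finsetSum (Finset.range K) fun k (_ : k ∈ Finset.range K) =>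
    h (f k) (c k) (c (k + 1)) (hf k) (hpos k) (hc.monotone (Nat.le_succ k))
  refine h2.congr' ?_
  filter_upwards [eventually_gt_atTop (0 : ℝ)] with M hM
  rw [int_pw hc hc0 f hf KK hk.2.1 hM hcK, Finset.mul_sum]

theorem adm (h : S_WEAK) (hk : S_KCUM) : S_ADM := by
  intro c f K hK hc hc0 hcK hf
  have hpos : ∀ k, 0 ≤ c k := fun k => hc0 ▸ hc.monotone (Nat.zero_le k)
  refine ⟨hpos K, hcK, ?_, ?_, ?_, ?_, ?_, ?_⟩
  · unfold pw
    exact Finset.measurable_fun_sum _ fun k _ => (hf k).measurable.indicator measurableSet_Ico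
  · have hb : ∀ k, ∃ B : ℝ, ∀ ξ ∈ Icc (c k) (c (k + 1)), ‖f k ξ‖ ≤ B := fun k =>
      isCompact_Icc.exists_bound_of_continuousOn (hf k).continuousOn
    choose B hB using hb
    refine ⟨∑ k ∈ Finset.range K, |B k|, fun ξ => ?_⟩
    rcases pw_cases hc K ξ with ⟨k₀, hk₀, hξ, h1⟩ | ⟨_, h1⟩
    · rw [h1]
      have h2 := hB k₀ ξ ⟨hξ.1, hξ.2.le⟩
      rw [Real.norm_eq_abs] at h2
      refine h2.trans ((le_abs_self _).trans ?_)
      exact Finset.single_le_sum (f := fun k => |B k|) (fun k _ => abs_nonneg _)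
        (Finset.mem_range.2 hk₀)
    · rw [h1, abs_zero]
      exact Finset.sum_nonneg fun k _ => abs_nonneg _
  · intro ξ hξ
    rcases pw_cases hc K ξ with ⟨k₀, hk₀, hξ2, h1⟩ | ⟨_, h1⟩
    · exfalso
      have h2 : c (k₀ + 1) ≤ c K := hc.monotone hk₀
      linarith [hξ2.2]
    · exact h1 f
  · have hval : ∀ ξ, 0 ≤ ξ → ξ < c 1 → pw c f K ξ = f 0 ξ := by
      intro ξ h1 h2
      have hmem : ξ ∈ Ico (c 0) (c (0 + 1)) := ⟨by rw [hc0]; exact h1, h2⟩
      rcases pw_cases hc K ξ with ⟨k₀, hk₀, hξ2, h3⟩ | ⟨h3, _⟩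
      · rw [h3]
        have : k₀ = 0 := by
          by_contra hne
          have h4 : c 1 ≤ c k₀ := hc.monotone (Nat.one_le_iff_ne_zero.2 hne)
          linarith [hξ2.1]
        rw [this]
      · exact absurd hmem (h3 0 hK)
    have hc1 : 0 < c 1 := by
      rw [← hc0]
      exact hc Nat.zero_lt_one
    rw [hval 0 le_rfl hc1]
    have h2 : Tendsto (f 0) (𝓝[>] 0) (𝓝 (f 0 0)) :=
      ((hf 0).tendsto 0).mono_left nhdsWithin_le_nhds
    refine h2.congr' ?_
    have h3 : Ioo (0 : ℝ) (c 1) ∈ 𝓝[>] (0 : ℝ) := Ioo_mem_nhdsGT hc1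
    filter_upwards [h3] with ξ hξ
    exact (hval ξ hξ.1.le hξ.2).symm
  · exact w_field h hk hc hc0 hcK f hf
  · have h2 := w_field h hk hc hc0 hcK (fun k x => f k x ^ 2) fun k => (hf k).pow 2
    simp only [← pw_sq hc f K] at h2
    exact h2

end Pool.Agent.W440.TCA
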