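import Pool.Agent.W198.TC.Stms2
import Pool.Agent.W198.TC.Basic

/-! TC-WEAK (helper440): weak convergence of the measures `KK (M ξ) dξ / M`. -/

set_option autoImplicit false

open Filter Topology Set MeasureTheory

namespace Pool.Agent.W440.TCW

open _root_.TC

theorem KK_nonneg (y : ℝ) : 0 ≤ KK y := by
  unfold KK
  exact tsum_nonneg fun n => mul_nonneg (sq_nonneg _) (gs_nonneg _)

/-- the distribution function -/
noncomputable def G (M ξ : ℝ) : ℝ := (1 / M ^ 2) * ∫ y in (0 : ℝ)..(M * ξ), KK y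

theorem G_deriv (hc : Continuous KK) {M : ℝ} (hM : 0 < M) (ξ : ℝ) :
    HasDerivAt (G M) ((1 / M) * KK (M * ξ)) ξ := by
  have h1 : HasDerivAt (fun z : ℝ => ∫ y in (0 : ℝ)..z, KK y) (KK (M * ξ)) (M * ξ) :=
    intervalIntegral.integral_hasDerivAt_right (hc.intervalIntegrable _ _)
      (hc.stronglyMeasurableAtFilter _ _) hc.continuousAt
  have h2 : HasDerivAt (fun ξ : ℝ => M * ξ) M ξ := by
    simpa using (hasDerivAt_id ξ).const_mul M
  have h3 := (h1.comp ξ h2).const_mul (1 / M ^ 2)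
  have e : 1 / M ^ 2 * (KK (M * ξ) * M) = (1 / M) * KK (M * ξ) := by
    field_simp
  rw [e] at h3
  exact h3

theorem G_bound {C : ℝ} (hC0 : 0 < C)
    (hC : ∀ Y : ℝ, 0 ≤ Y → |(∫ y in (0 : ℝ)..Y, KK y) - Y ^ 2 / 2| ≤ C * (Y + 1))
    {M ξ : ℝ} (hM : 1 ≤ M) (hξ : 0 ≤ ξ) : |G M ξ - ξ ^ 2 / 2| ≤ C * (ξ + 1) / M := by
  have hM0 : 0 < M := by linarith
  have h := hC (M * ξ) (by positivity)
  have e : G M ξ - ξ ^ 2 / 2 = (1 / M ^ 2) * ((∫ y in (0 : ℝ)..(M * ξ), KK y) - (M * ξ) ^ 2 / 2) := by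
    unfold G
    field_simp
  rw [e, abs_mul, abs_of_pos (by positivity : (0 : ℝ) < 1 / M ^ 2)]
  calc (1 / M ^ 2) * |(∫ y in (0 : ℝ)..(M * ξ), KK y) - (M * ξ) ^ 2 / 2|
      ≤ (1 / M ^ 2) * (C * (M * ξ + 1)) := mul_le_mul_of_nonneg_left h (by positivity)
    _ ≤ (1 / M ^ 2) * (C * (M * ξ + M)) := by gcongr
    _ = C * (ξ + 1) / M := by
      field_simp

theorem G_tendsto {C : ℝ} (hC0 : 0 < C)
    (hC : ∀ Y : ℝ, 0 ≤ Y → |(∫ y in (0 : ℝ)..Y, KK y) - Y ^ 2 / 2| ≤ C * (Y + 1))
    {ξ : ℝ} (hξ : 0 ≤ ξ) : Tendsto (fun M => G M ξ) atTop (𝓝 (ξ ^ 2 / 2)) := by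
  rw [tendsto_iff_norm_sub_tendsto_zero]
  have h0 : Tendsto (fun M : ℝ => C * (ξ + 1) / M) atTop (𝓝 0) :=
    tendsto_const_nhds.div_atTop tendsto_id
  refine squeeze_zero' (Eventually.of_forall fun M => norm_nonneg _) ?_ h0
  filter_upwards [eventually_ge_atTop (1 : ℝ)] with M hM
  rw [Real.norm_eq_abs]
  exact G_bound hC0 hC hM hξ

/-- the substitution `y = M ξ` -/
theorem subst_eq {M : ℝ} (hM : 0 < M) (f : ℝ → ℝ) (c d : ℝ) :
    (1 / M ^ 2) * ∫ y in (c * M)..(d * M), f (y / M) * KK y =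
      ∫ ξ in c..d, f ξ * ((1 / M) * KK (M * ξ)) := by
  have h := intervalIntegral.integral_comp_mul_left (a := c) (b := d)
    (fun y => f (y / M) * KK y) hM.ne'
  have e : (fun ξ => f ξ * ((1 / M) * KK (M * ξ))) =
      fun ξ => (1 / M) * (f (M * ξ / M) * KK (M * ξ)) := by
    funext ξ
    rw [mul_div_cancel_left₀ _ hM.ne']
    ring
  rw [e, intervalIntegral.integral_const_mul, h, mul_comm M c, mul_comm M d, smul_eq_mul]
  rw [← mul_assoc]
  congr 1
  field_simp

/-- polynomials -/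
theorem weak_poly (h : S_KCUM) (p : Polynomial ℝ) (c d : ℝ) (hc : 0 ≤ c) (hcd : c ≤ d) :
    Tendsto (fun M : ℝ => (1 / M ^ 2) * ∫ y in (c * M)..(d * M), p.eval (y / M) * KK y) atTop
      (𝓝 (∫ ξ in c..d, ξ * p.eval ξ)) := by
  obtain ⟨_, hKc, C, hC0, hC⟩ := h
  have hd : 0 ≤ d := hc.trans hcd
  have hp' : Continuous fun ξ => (Polynomial.derivative p).eval ξ :=
    (Polynomial.derivative p).continuous
  -- the formula
  have hform : ∀ M : ℝ, 0 < M → (1 / M ^ 2) * ∫ y in (c * M)..(d * M), p.eval (y / M) * KK y =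
      p.eval d * G M d - p.eval c * G M c -
        ∫ ξ in c..d, (Polynomial.derivative p).eval ξ * G M ξ := by
    intro M hM
    rw [subst_eq hM (fun ξ => p.eval ξ) c d]
    refine intervalIntegral.integral_mul_deriv_eq_deriv_mul (u := fun ξ => p.eval ξ) (v := G M)
      (fun ξ _ => p.hasDerivAt ξ) (fun ξ _ => G_deriv hKc hM ξ) (hp'.intervalIntegrable _ _) ?_
    apply Continuous.intervalIntegrable
    fun_prop
  have hlim : (∫ ξ in c..d, ξ * p.eval ξ) = p.eval d * (d ^ 2 / 2) - p.eval c * (c ^ 2 / 2) -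
      ∫ ξ in c..d, (Polynomial.derivative p).eval ξ * (ξ ^ 2 / 2) := by
    rw [← intervalIntegral.integral_mul_deriv_eq_deriv_mul (u := fun ξ => p.eval ξ)
      (v := fun ξ => ξ ^ 2 / 2) (v' := fun ξ => ξ) (fun ξ _ => p.hasDerivAt ξ) (fun ξ _ => ?_)
      (hp'.intervalIntegrable _ _) (continuous_id.intervalIntegrable _ _)]
    · congr 1
      funext ξ
      ring
    · have := (hasDerivAt_pow 2 ξ).div_const 2
      simpa using this
  rw [hlim]
  have hint : Tendsto (fun M => ∫ ξ in c..d, (Polynomial.derivative p).eval ξ * G M ξ) atTop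
      (𝓝 (∫ ξ in c..d, (Polynomial.derivative p).eval ξ * (ξ ^ 2 / 2))) := by
    refine intervalIntegral.tendsto_integral_filter_of_dominated_convergence
      (fun ξ => |(Polynomial.derivative p).eval ξ| * (d ^ 2 / 2 + C * (d + 1))) ?_ ?_ ?_ ?_
    · filter_upwards [eventually_gt_atTop (0 : ℝ)] with M hM
      have hGc : Continuous (G M) :=
        continuous_iff_continuousAt.2 fun ξ => (G_deriv hKc hM ξ).continuousAt
      exact (hp'.mul hGc).aestronglyMeasurable
    · filter_upwards [eventually_ge_atTop (1 : ℝ)] with M hM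
      refine Eventually.of_forall fun ξ hξ => ?_
      rw [uIoc_of_le hcd] at hξ
      have hξ0 : 0 ≤ ξ := hc.trans hξ.1.le
      rw [norm_mul, Real.norm_eq_abs, Real.norm_eq_abs]
      refine mul_le_mul_of_nonneg_left ?_ (abs_nonneg _)
      have h1 := G_bound hC0 hC hM hξ0
      have h2 : C * (ξ + 1) / M ≤ C * (d + 1) := by
        rw [div_le_iff₀ (by linarith)]
        have h3 : ξ + 1 ≤ d + 1 := by linarith [hξ.2]
        have h4 : C * (ξ + 1) ≤ C * (d + 1) := mul_le_mul_of_nonneg_left h3 hC0.le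
        have h5 : 0 ≤ C * (d + 1) := by positivity
        nlinarith
      have h6 : ξ ^ 2 / 2 ≤ d ^ 2 / 2 := by
        have := pow_le_pow_left₀ hξ0 hξ.2 2
        linarith
      rw [abs_le] at h1 ⊢
      constructor
      · have : 0 ≤ ξ ^ 2 / 2 := by positivity
        have h7 : 0 ≤ d ^ 2 / 2 := by positivity
        linarith [h1.1]
      · linarith [h1.2]
    · apply Continuous.intervalIntegrable
      fun_prop
    · refine Eventually.of_forall fun ξ hξ => ?_
      rw [uIoc_of_le hcd] at hξ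
      exact (G_tendsto hC0 hC (hc.trans hξ.1.le)).const_mul _
  have hall := (((G_tendsto hC0 hC hd).const_mul (p.eval d)).sub
    ((G_tendsto hC0 hC hc).const_mul (p.eval c))).sub hint
  refine hall.congr' ?_
  filter_upwards [eventually_gt_atTop (0 : ℝ)] with M hM
  exact (hform M hM).symm

/-- the mass is bounded -/
theorem mass_le {C : ℝ} (hC0 : 0 < C) (hKc : Continuous KK)
    (hC : ∀ Y : ℝ, 0 ≤ Y → |(∫ y in (0 : ℝ)..Y, KK y) - Y ^ 2 / 2| ≤ C * (Y + 1))
    {c d M : ℝ} (hc : 0 ≤ c) (hcd : c ≤ d) (hM : 1 ≤ M) :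
    (1 / M ^ 2) * ∫ y in (c * M)..(d * M), KK y ≤ d ^ 2 / 2 + C * (d + 1) := by
  have hM0 : 0 < M := by linarith
  have hd : 0 ≤ d := hc.trans hcd
  have h1 : ∫ y in (c * M)..(d * M), KK y ≤ ∫ y in (0 : ℝ)..(M * d), KK y := by
    rw [mul_comm M d, ← intervalIntegral.integral_add_adjacent_intervals
      (hKc.intervalIntegrable 0 (c * M)) (hKc.intervalIntegrable (c * M) (d * M))]
    have : 0 ≤ ∫ y in (0 : ℝ)..(c * M), KK y :=
      intervalIntegral.integral_nonneg (by positivity) fun y _ => KK_nonneg y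
    linarith
  have h2 := mul_le_mul_of_nonneg_left h1 (by positivity : (0 : ℝ) ≤ 1 / M ^ 2)
  have h3 := G_bound hC0 hC hM hd
  have h4 : C * (d + 1) / M ≤ C * (d + 1) := div_le_self (by positivity) hM
  have h5 := (abs_le.1 h3).2
  unfold G at h5
  linarith

theorem weak (h : S_KCUM) : S_WEAK := by
  intro f c d hf hc hcd
  have hpoly := weak_poly h
  obtain ⟨_, hKc, C, hC0, hC⟩ := h
  have hd : 0 ≤ d := hc.trans hcd
  set B : ℝ := d ^ 2 / 2 + C * (d + 1) with hB
  have hB0 : 0 < B := by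
    have : 0 < C * (d + 1) := by positivity
    have h2 : 0 ≤ d ^ 2 / 2 := by positivity
    linarith
  rw [Metric.tendsto_atTop]
  intro ε hε
  obtain ⟨p, hp⟩ := exists_polynomial_near_of_continuousOn c d f hf.continuousOn (ε / (4 * B))
    (by positivity)
  obtain ⟨N, hN⟩ := Metric.tendsto_atTop.1 (hpoly p c d hc hcd) (ε / 4) (by positivity)
  refine ⟨max N 1, fun M hM => ?_⟩
  have hM1 : 1 ≤ M := (le_max_right _ _).trans hM
  have hM0 : 0 < M := by linarith
  have hNM := hN M ((le_max_left _ _).trans hM)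
  rw [Real.dist_eq] at hNM ⊢
  have hcM : c * M ≤ d * M := mul_le_mul_of_nonneg_right hcd hM0.le
  -- comparison at `M`
  have hmass := mass_le hC0 hKc hC hc hcd hM1
  have h1 : |(1 / M ^ 2) * (∫ y in (c * M)..(d * M), f (y / M) * KK y) -
      (1 / M ^ 2) * ∫ y in (c * M)..(d * M), p.eval (y / M) * KK y| ≤ ε / 4 := by
    have i1 : IntervalIntegrable (fun y => f (y / M) * KK y) volume (c * M) (d * M) := by
      apply Continuous.intervalIntegrable
      fun_prop
    have i2 : IntervalIntegrable (fun y => p.eval (y / M) * KK y) volume (c * M) (d * M) := by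
      apply Continuous.intervalIntegrable
      exact (p.continuous.comp (by fun_prop)).mul hKc
    rw [← mul_sub, ← intervalIntegral.integral_sub i1 i2, abs_mul,
      abs_of_pos (by positivity : (0 : ℝ) < 1 / M ^ 2)]
    have h2 : |∫ y in (c * M)..(d * M), (f (y / M) * KK y - p.eval (y / M) * KK y)| ≤
        ∫ y in (c * M)..(d * M), ε / (4 * B) * KK y := by
      rw [← Real.norm_eq_abs]
      refine intervalIntegral.norm_integral_le_of_norm_le hcM
        (Eventually.of_forall fun y hy => ?_) ((hKc.const_mul _).intervalIntegrable _ _)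
      rw [← sub_mul, norm_mul, Real.norm_eq_abs, Real.norm_of_nonneg (KK_nonneg y)]
      refine mul_le_mul_of_nonneg_right ?_ (KK_nonneg y)
      rw [abs_sub_comm]
      refine (hp (y / M) ⟨?_, ?_⟩).le
      · rw [le_div_iff₀ hM0]
        exact hy.1.le
      · rw [div_le_iff₀ hM0]
        exact hy.2
    rw [intervalIntegral.integral_const_mul] at h2
    calc (1 / M ^ 2) * |∫ y in (c * M)..(d * M), (f (y / M) * KK y - p.eval (y / M) * KK y)|
        ≤ (1 / M ^ 2) * (ε / (4 * B) * ∫ y in (c * M)..(d * M), KK y) :=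
          mul_le_mul_of_nonneg_left h2 (by positivity)
      _ = ε / (4 * B) * ((1 / M ^ 2) * ∫ y in (c * M)..(d * M), KK y) := by ring
      _ ≤ ε / (4 * B) * B := mul_le_mul_of_nonneg_left hmass (by positivity)
      _ = ε / 4 := by field_simp
  -- comparison of the limits
  have h3 : |(∫ ξ in c..d, ξ * p.eval ξ) - ∫ ξ in c..d, ξ * f ξ| ≤ ε / 4 := by
    have i1 : IntervalIntegrable (fun ξ => ξ * p.eval ξ) volume c d := by
      apply Continuous.intervalIntegrable
      exact continuous_id.mul p.continuous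
    have i2 : IntervalIntegrable (fun ξ => ξ * f ξ) volume c d := by
      apply Continuous.intervalIntegrable
      fun_prop
    rw [← intervalIntegral.integral_sub i1 i2]
    have h2 : |∫ ξ in c..d, (ξ * p.eval ξ - ξ * f ξ)| ≤ ∫ ξ in c..d, ε / (4 * B) * ξ := by
      rw [← Real.norm_eq_abs]
      refine intervalIntegral.norm_integral_le_of_norm_le hcd
        (Eventually.of_forall fun ξ hξ => ?_)
        ((continuous_const.mul continuous_id).intervalIntegrable _ _)
      have hξ0 : 0 ≤ ξ := hc.trans hξ.1.le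
      rw [← mul_sub, norm_mul, Real.norm_of_nonneg hξ0, Real.norm_eq_abs, mul_comm]
      exact mul_le_mul_of_nonneg_right (hp ξ ⟨hξ.1.le, hξ.2⟩).le hξ0
    rw [intervalIntegral.integral_const_mul, integral_id] at h2
    refine h2.trans ?_
    calc ε / (4 * B) * ((d ^ 2 - c ^ 2) / 2) ≤ ε / (4 * B) * B := by
          refine mul_le_mul_of_nonneg_left ?_ (by positivity)
          have : 0 ≤ c ^ 2 := sq_nonneg c
          have h4 : 0 < C * (d + 1) := by positivity
          rw [hB]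
          linarith
      _ = ε / 4 := by field_simp
  have h5 := abs_le.1 h1
  have h6 := abs_le.1 h3
  have h7 := abs_lt.1 hNM
  rw [abs_lt]
  constructor <;> linarith [h5.1, h5.2, h6.1, h6.2, h7.1, h7.2]

end Pool.Agent.W440.TCW
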